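import Pool.Agent.H71.CW.Top

/-!
TP5: the rank function on `FF x`.
-/

set_option autoImplicit false

open Set

namespace Pool.Agent.CW

namespace H20T

/-- points of rank at least `m` -/
def GG (x : ℕ → Bool) (m : ℕ) : Set (ℕ → Bool) :=
  {p | ∀ n i, Mk p n i → ∀ J : Finset ℕ, (∀ j ∈ J, i < j ∧ p j = true) → J.card + m < kk x n}

theorem GG_zero (x : ℕ → Bool) : GG x 0 = FF x := rfl

theorem GG_anti (x : ℕ → Bool) {m m' : ℕ} (h : m ≤ m') {p : ℕ → Bool} (hp : p ∈ GG x m') :
    p ∈ GG x m := by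
  intro n i hM J hJ
  have := hp n i hM J hJ
  omega

/-- the rank -/
noncomputable def rr (x : ℕ → Bool) (p : FF x) : ℕ∞ :=
  ⨅ (m : ℕ) (_ : p.1 ∉ GG x (m + 1)), (m : ℕ∞)

theorem le_rr (x : ℕ → Bool) (p : FF x) (m : ℕ) : (m : ℕ∞) ≤ rr x p ↔ p.1 ∈ GG x m := by
  unfold rr
  constructor
  · intro h
    by_contra hc
    rcases Nat.eq_zero_or_pos m with h0 | h0
    · subst h0
      exact hc p.2
    · obtain ⟨m', rfl⟩ : ∃ m', m = m' + 1 := ⟨m - 1, by omega⟩
      have h1 := h.trans (iInf₂_le m' hc)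
      rw [Nat.cast_le] at h1
      omega
  · intro h
    refine le_iInf₂ fun m' hm' => ?_
    rw [Nat.cast_le]
    by_contra hc
    exact hm' (GG_anti x (by omega) h)

theorem rr_lt (x : ℕ → Bool) (p : FF x) (m : ℕ) : rr x p < (m : ℕ∞) ↔ p.1 ∉ GG x m := by
  rw [← not_le, le_rr]

theorem rr_top (x : ℕ → Bool) (p : FF x) : rr x p = ⊤ ↔ ∀ m, p.1 ∈ GG x m := by
  rw [ENat.eq_top_iff_forall_ge]
  exact forall_congr' fun m => le_rr x p m

theorem rr_top_iff (x : ℕ → Bool) (p : FF x) : rr x p = ⊤ ↔ ∀ n i, ¬ Mk p.1 n i := by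
  rw [rr_top]
  constructor
  · intro h n i hM
    have := h (kk x n) n i hM ∅ (by simp)
    omega
  · intro h m n i hM
    exact absurd hM (h n i)

/-- basic neighbourhoods -/
theorem nhd (x : ℕ → Bool) (p : FF x) (U : Set (FF x)) (hU : IsOpen U) (hp : p ∈ U) :
    ∃ N : ℕ, ∀ q : FF x, (∀ j < N, q.1 j = p.1 j) → q ∈ U := by
  obtain ⟨V, hV, rfl⟩ := isOpen_induced_iff.1 hU
  have hb := PiNat.isTopologicalBasis_cylinders (fun _ : ℕ => Bool)
  obtain ⟨t, ⟨y, N, rfl⟩, hpt, htV⟩ := hb.mem_nhds_iff.1 (hV.mem_nhds hp)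
  refine ⟨N, fun q hq => htV ?_⟩
  rw [PiNat.mem_cylinder_iff] at hpt ⊢
  intro i hi
  rw [hq i hi, hpt i hi]

theorem opn (x : ℕ → Bool) (p : FF x) (N : ℕ) :
    IsOpen {q : FF x | ∀ j < N, q.1 j = p.1 j} := by
  have h1 : IsOpen (PiNat.cylinder p.1 N) := PiNat.isOpen_cylinder _ _ _
  have h2 := h1.preimage (continuous_subtype_val (p := fun z => z ∈ FF x))
  have h3 : {q : FF x | ∀ j < N, q.1 j = p.1 j} = Subtype.val ⁻¹' (PiNat.cylinder p.1 N) := by
    ext q
    simp [PiNat.mem_cylinder_iff]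
  rw [h3]
  exact h2

/-- the first one is unique -/
theorem fst_eq {p : ℕ → Bool} {n n' : ℕ} (h1 : ∀ j < n, p j = false) (h2 : p n = true)
    (h1' : ∀ j < n', p j = false) (h2' : p n' = true) : n = n' := by
  rcases lt_trichotomy n n' with h | h | h
  · exact absurd (h1' n h) (by rw [h2]; simp)
  · exact h
  · exact absurd (h1 n' h) (by rw [h2']; simp)

theorem isRk (x : ℕ → Bool) : RkF (FF x) (rr x) := by
  constructor
  · intro p m hm
    have h1 : p.1 ∈ GG x m := (le_rr x p m).1 hm.ge
    have h2 : p.1 ∉ GG x (m + 1) := by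
      rw [← le_rr, hm]
      intro h
      rw [Nat.cast_le] at h
      omega
    have h3 : ∃ n i, Mk p.1 n i ∧ ∃ J : Finset ℕ, (∀ j ∈ J, i < j ∧ p.1 j = true) ∧
        kk x n ≤ J.card + (m + 1) := by
      by_contra hc
      push Not at hc
      exact h2 fun n i hM J hJ => hc n i hM J hJ
    obtain ⟨n, i, hM, J, hJ, hc⟩ := h3
    obtain ⟨N, hN1, hN2⟩ : ∃ N, i < N ∧ ∀ j ∈ J, j < N :=
      ⟨max (i + 1) (J.sup id + 1), by omega, fun j hj => by
        have : j ≤ J.sup id := Finset.le_sup (f := id) hj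
        omega⟩
    refine ⟨_, opn x p N, fun j _ => rfl, fun q hq hqp => ?_⟩
    rw [rr_lt]
    intro hG
    have hni : n < i := hM.2.2.1
    have hMq : Mk q.1 n i := by
      refine ⟨fun j hj => ?_, ?_, hni, hM.2.2.2.1, ?_⟩
      · rw [hq j (by omega)]
        exact hM.1 j hj
      · rw [hq n (by omega)]
        exact hM.2.1
      · rw [hq i hN1]
        exact hM.2.2.2.2
    obtain ⟨j, hj⟩ : ∃ j, q.1 j ≠ p.1 j := by
      by_contra h
      push Not at h
      exact hqp (Subtype.ext (funext h))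
    have hjN : N ≤ j := by
      by_contra h
      exact hj (hq j (by omega))
    have hjJ : j ∉ J := fun h => by
      have := hN2 j h
      omega
    have key : ∀ z : ℕ → Bool, (∀ k < N, z k = p.1 k) → Mk z n i → z ∈ GG x m → z j = true →
        False := by
      intro z hz hMz hGz hzj
      have := hGz n i hMz (insert j J) (by
        intro k hk
        rw [Finset.mem_insert] at hk
        rcases hk with rfl | hk
        · exact ⟨by omega, hzj⟩
        · refine ⟨(hJ k hk).1, ?_⟩
          rw [hz k (hN2 k hk)]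
          exact (hJ k hk).2)
      rw [Finset.card_insert_of_notMem hjJ] at this
      omega
    cases hpj : p.1 j with
    | true => exact key p.1 (fun _ _ => rfl) hM h1 hpj
    | false =>
      refine key q.1 hq hMq hG ?_
      rw [hpj] at hj
      simpa using hj
  · intro p m hm U hU hpU
    obtain ⟨N, hN⟩ := nhd x p U hU hpU
    have hG : p.1 ∈ GG x (m + 1) := by
      rw [← le_rr]
      exact Order.add_one_le_of_lt hm
    by_cases h0 : ∃ n, p.1 n = true
    · classical
      obtain ⟨n, hn1, hn2⟩ : ∃ n, p.1 n = true ∧ ∀ j < n, p.1 j = false :=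
        ⟨Nat.find h0, Nat.find_spec h0, fun j hj => by
          have := Nat.find_min h0 hj
          simpa using this⟩
      have hj1 : N ≤ n + 2 * N + 1 := by omega
      have hj2 : n < n + 2 * N + 1 := by omega
      have hj3 : ¬ Even (n + 2 * N + 1 - n) := by
        rw [show n + 2 * N + 1 - n = 2 * N + 1 by omega]
        simp
      generalize hjd : n + 2 * N + 1 = j at hj1 hj2 hj3
      have hq0 : ∀ k, k ≠ j → Function.update p.1 j (!p.1 j) k = p.1 k := fun k hk =>
        Function.update_of_ne hk _ _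
      have hMk : ∀ n' i', Mk (Function.update p.1 j (!p.1 j)) n' i' → Mk p.1 n' i' ∧ i' ≠ j := by
        intro n' i' hM
        have hnn : n' = n := by
          refine fst_eq hM.1 hM.2.1 (fun k hk => ?_) ?_
          · rw [hq0 k (by omega)]
            exact hn2 k hk
          · rw [hq0 n (by omega)]
            exact hn1
        subst hnn
        have hij : i' ≠ j := by
          rintro rfl
          exact hj3 hM.2.2.2.1
        refine ⟨⟨hn2, hn1, hM.2.2.1, hM.2.2.2.1, ?_⟩, hij⟩
        rw [← hq0 i' hij]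
        exact hM.2.2.2.2
      have hqG : Function.update p.1 j (!p.1 j) ∈ GG x m := by
        intro n' i' hM J hJ
        obtain ⟨hM', hij⟩ := hMk n' i' hM
        have h1 := hG n' i' hM' (J.erase j) (by
          intro k hk
          rw [Finset.mem_erase] at hk
          refine ⟨(hJ k hk.2).1, ?_⟩
          rw [← hq0 k hk.1]
          exact (hJ k hk.2).2)
        have h2 : J.card ≤ (J.erase j).card + 1 := by
          have := Finset.pred_card_le_card_erase (s := J) (a := j)
          omega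
        omega
      refine ⟨⟨Function.update p.1 j (!p.1 j), GG_anti x (Nat.zero_le _) hqG⟩, ?_, ?_, ?_⟩
      · exact hN _ fun k hk => hq0 k (by omega)
      · intro h
        have h1 := congrArg (fun z => z.1 j) h
        simp at h1
      · rw [le_rr]
        exact hqG
    · push Not at h0
      have hM0 : ∀ m' , (fun k => decide (k = N) : ℕ → Bool) ∈ GG x m' := by
        intro m' n i hM
        have h1 : n = N := by simpa using hM.2.1
        have h2 : i = N := by simpa using hM.2.2.2.2
        have := hM.2.2.1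
        omega
      refine ⟨⟨fun k => decide (k = N), hM0 0⟩, ?_, ?_, ?_⟩
      · refine hN _ fun k hk => ?_
        have h1 : p.1 k = false := by simpa using h0 k
        have h2 : k ≠ N := by omega
        simp [h1, h2]
      · intro h
        have h1 := congrArg (fun z => z.1 N) h
        have h2 : p.1 N = false := by simpa using h0 N
        simp [h2] at h1
      · rw [le_rr]
        exact hM0 m

/-- a point of finite rank is a limit of points of every smaller rank -/
theorem all_below (Y : Type) [TopologicalSpace Y] (ρ : Y → ℕ∞) (hρ : RkF Y ρ) :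
    ∀ (M : ℕ) (p : Y), ρ p = M → ∀ m ≤ M, ∀ U : Set Y, IsOpen U → p ∈ U → ∃ q ∈ U, ρ q = m := by
  intro M
  induction M with
  | zero =>
    intro p hp m hm U _ hpU
    obtain rfl : m = 0 := by omega
    exact ⟨p, hpU, hp⟩
  | succ M ih =>
    intro p hp m hm U hU hpU
    rcases Nat.lt_or_ge m (M + 1) with h | h
    · obtain ⟨V, hV, hpV, hV2⟩ := hρ.up p (M + 1) hp
      obtain ⟨q, hq, hqp, hMq⟩ := hρ.lim p M (by
        rw [hp]
        exact_mod_cast Nat.lt_succ_self M) (U ∩ V) (hU.inter hV) ⟨hpU, hpV⟩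
      have h1 := hV2 q hq.2 hqp
      have h2 : ρ q = M := by
        refine le_antisymm ?_ hMq
        have : ρ q < (M : ℕ∞) + 1 := by exact_mod_cast h1
        exact Order.le_of_lt_add_one this
      exact ih q h2 m (by omega) U hU hq.1
    · obtain rfl : m = M + 1 := by omega
      exact ⟨p, hpU, hp⟩

theorem below (x : ℕ → Bool) (p : FF x) (m : ℕ) (hm : (m : ℕ∞) ≤ rr x p) (ht : rr x p ≠ ⊤)
    (U : Set (FF x)) (hU : IsOpen U) (hp : p ∈ U) : ∃ q ∈ U, rr x q = m := by
  obtain ⟨M, hM⟩ := ENat.ne_top_iff_exists.1 ht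
  refine all_below _ _ (isRk x) M p hM.symm m ?_ U hU hp
  rw [← hM, Nat.cast_le] at hm
  exact hm

theorem kk_pos (x : ℕ → Bool) (n : ℕ) : 2 * n < kk x n := by
  unfold kk
  omega

/-- infinite rank, first part -/
theorem inf1 (x : ℕ → Bool) (p : FF x) (n : ℕ) (h1 : ∀ j < n, p.1 j = false)
    (h2 : p.1 n = true) :
    ∃ U : Set (FF x), IsOpen U ∧ p ∈ U ∧ ∀ q ∈ U, rr x q = ⊤ ∨ rr x q < kk x n := by
  refine ⟨_, opn x p (n + 1), fun j _ => rfl, fun q hq => ?_⟩
  rw [rr_top_iff, rr_lt]
  by_cases h : ∀ n i, ¬ Mk q.1 n i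
  · exact Or.inl h
  · right
    push Not at h
    obtain ⟨n', i, hM⟩ := h
    have hn : n' = n := by
      refine fst_eq hM.1 hM.2.1 (fun k hk => ?_) ?_
      · rw [hq k (by omega)]
        exact h1 k hk
      · rw [hq n (by omega)]
        exact h2
    subst hn
    intro hG
    have := hG n' i hM ∅ (by simp)
    omega

/-- infinite rank, second part -/
theorem inf2 (x : ℕ → Bool) (p : FF x) (n : ℕ) (hp : rr x p = ⊤) (h1 : ∀ j < n, p.1 j = false)
    (h2 : p.1 n = true) (m : ℕ) (hm : m < kk x n) (U : Set (FF x)) (hU : IsOpen U)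
    (hpU : p ∈ U) : ∃ q ∈ U, rr x q = m := by
  rw [rr_top_iff] at hp
  obtain ⟨N, hN⟩ := nhd x p U hU hpU
  have hj1 : N ≤ n + 2 * (N + 1) := by omega
  have hj2 : n < n + 2 * (N + 1) := by omega
  have hj3 : Even (n + 2 * (N + 1) - n) := by
    rw [show n + 2 * (N + 1) - n = 2 * (N + 1) by omega]
    simp
  generalize hjd : n + 2 * (N + 1) = j at hj1 hj2 hj3
  have hq1 : ∀ k < j, (fun k => if k < j then p.1 k else decide (k = j) : ℕ → Bool) k = p.1 k := by
    intro k hk
    simp [hk]
  have hq2 : (fun k => if k < j then p.1 k else decide (k = j) : ℕ → Bool) j = true := by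
    simp
  have hq3 : ∀ k, j < k →
      (fun k => if k < j then p.1 k else decide (k = j) : ℕ → Bool) k = false := by
    intro k hk
    have e1 : ¬ k < j := by omega
    have e2 : k ≠ j := by omega
    simp [e1, e2]
  generalize (fun k => if k < j then p.1 k else decide (k = j) : ℕ → Bool) = q at hq1 hq2 hq3
  have hMq : Mk q n j := by
    refine ⟨fun k hk => ?_, ?_, hj2, hj3, hq2⟩
    · rw [hq1 k (by omega)]
      exact h1 k hk
    · rw [hq1 n hj2]
      exact h2
  have hMq' : ∀ n' i, Mk q n' i → n' = n ∧ i = j := by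
    intro n' i hM
    have hn : n' = n := fst_eq hM.1 hM.2.1 hMq.1 hMq.2.1
    subst hn
    refine ⟨rfl, ?_⟩
    rcases lt_trichotomy i j with h | h | h
    · exfalso
      refine hp n' i ⟨h1, h2, hM.2.2.1, hM.2.2.2.1, ?_⟩
      rw [← hq1 i h]
      exact hM.2.2.2.2
    · exact h
    · have h3 := hq3 i h
      rw [hM.2.2.2.2] at h3
      simp at h3
  have hqG : q ∈ GG x (kk x n - 1) := by
    intro n' i hM J hJ
    obtain ⟨rfl, rfl⟩ := hMq' n' i hM
    have hJe : J = ∅ := by
      rw [Finset.eq_empty_iff_forall_notMem]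
      intro k hk
      have h3 := hJ k hk
      rw [hq3 k h3.1] at h3
      simp at h3
    rw [hJe, Finset.card_empty]
    have := kk_pos x n'
    omega
  have hqG' : q ∉ GG x (kk x n) := by
    intro h
    have := h n j hMq ∅ (by simp)
    omega
  have hqF : q ∈ FF x := GG_anti x (Nat.zero_le _) hqG
  have hqU : (⟨q, hqF⟩ : FF x) ∈ U := hN _ fun k hk => hq1 k (by omega)
  refine below x ⟨q, hqF⟩ m ?_ ?_ U hU hqU
  · refine le_trans ?_ ((le_rr x ⟨q, hqF⟩ (kk x n - 1)).2 hqG)
    rw [Nat.cast_le]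
    omega
  · intro h
    exact hqG' ((rr_top x ⟨q, hqF⟩).1 h _)

theorem one_mk (N : ℕ) : ∀ n i, ¬ Mk (fun k => decide (k = N) : ℕ → Bool) n i := by
  intro n i hM
  have h1 : n = N := by simpa using hM.2.1
  have h2 : i = N := by simpa using hM.2.2.2.2
  have := hM.2.2.1
  omega

theorem one_mem (x : ℕ → Bool) (N : ℕ) : (fun k => decide (k = N) : ℕ → Bool) ∈ FF x :=
  fun n i hM => absurd hM (one_mk N n i)

end H20T

open H20T

theorem pf_TP5 : TP5 := by
  intro x
  refine ⟨rr x, isRk x, fun p m hm ht U hU hp => below x p m hm ht U hU hp, ?_, ?_, ?_⟩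
  · intro p hp
    refine ⟨(rr_top_iff x p).2 fun n i hM => ?_, fun m U hU hpU => ?_⟩
    · have h := hM.2.1
      rw [hp n] at h
      simp at h
    · obtain ⟨N, hN⟩ := nhd x p U hU hpU
      have hq : rr x ⟨_, one_mem x (N + m)⟩ = ⊤ := (rr_top_iff x _).2 (one_mk (N + m))
      refine inf2 x ⟨_, one_mem x (N + m)⟩ (N + m) hq (fun j hj => ?_) ?_ m ?_ U hU (hN _ ?_)
      · have : j ≠ N + m := by omega
        simpa using this
      · simp
      · have := kk_pos x (N + m)
        omega
      · intro j hj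
        rw [hp j]
        have : j ≠ N + m := by omega
        simpa using this
  · intro p n ht h1 h2
    exact ⟨inf1 x p n h1 h2, fun m hm U hU hpU => inf2 x p n ht h1 h2 m hm U hU hpU⟩
  · intro n
    refine ⟨⟨_, one_mem x n⟩, (rr_top_iff x _).2 (one_mk n), fun j hj => ?_, ?_⟩
    · have : j ≠ n := by omega
      simpa using this
    · simp

end Pool.Agent.CW
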